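import Pool.Agent.helper45.SGK.Spec

set_option autoImplicit false

namespace Pool.Agent.SGK

open Finset Pool.Agent.helper38.Neg Pool.Agent.helper55.NT
open Pool.Agent.SGC (Sg SCirc Ext Mv hw RN Solv stA stB)

theorem FLK_z2 (a : ZMod 2) : a + a = 0 := by
  revert a; decide

theorem FLK_zero {k t : ℕ} (c : Cl k t) : fc 0 c = c := by
  unfold fc
  refine Prod.ext rfl ?_
  funext j
  simp

theorem FLK_add {k t : ℕ} (γ δ : Sg t) (c : Cl k t) : fc (γ + δ) c = fc γ (fc δ c) := by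
  unfold fc
  refine Prod.ext rfl ?_
  funext j
  simp only [Pi.add_apply]
  ring

theorem FLK_flz {k n : ℕ} [NeZero k] (p : Fin n) : gl (0 : Sg (tw k n)) p = p := by
  by_cases h : ∃ c : Cl k (tw k n), ps c = p
  · obtain ⟨c, rfl⟩ := h
    rw [gl_ps, FLK_zero]
  · push Not at h
    exact gl_of_not _ _ h

theorem FLK_fla {k n : ℕ} [NeZero k] (γ δ : Sg (tw k n)) (p : Fin n) : gl (γ + δ) p = gl γ (gl δ p) := by
  by_cases h : ∃ c : Cl k (tw k n), ps c = p
  · obtain ⟨c, rfl⟩ := h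
    rw [gl_ps, gl_ps, gl_ps, FLK_add]
  · push Not at h
    rw [gl_of_not _ _ h, gl_of_not _ _ h, gl_of_not _ _ h]

theorem FLK_sat {k n : ℕ} [NeZero k] (P : Finset (Wd k)) (γ : Sg (tw k n)) (x : Fin n → Bool)
    (h : SAT k P n x) : SAT k P n (x ∘ gl γ) := by
  obtain ⟨α, hα⟩ := h
  refine ⟨α + γ, ?_⟩
  intro c hc
  simp only [Function.comp_apply, gl_ps] at hc
  have h1 := hα _ hc
  have h2 : (fun j => (α + γ) (c.1 j) + c.2 j) = fun j => α ((fc γ c).1 j) + (fc γ c).2 j := by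
    funext j
    simp only [fc, Pi.add_apply]
    ring
  rw [h2]
  exact h1

theorem FLK_comp2 {k n : ℕ} [NeZero k] (γ : Sg (tw k n)) (x : Fin n → Bool) : (x ∘ gl γ) ∘ gl γ = x := by
  funext p
  simp only [Function.comp_apply]
  rw [gl_gl]

theorem FLK : FLK_stmt := by
  intro k _ n
  refine ⟨FLK_flz, FLK_fla, gl_gl, ?_⟩
  intro V P γ _ x
  refine ⟨fun h => ?_, fun h => FLK_sat P γ x h⟩
  have h1 := FLK_sat P γ _ h
  rwa [FLK_comp2] at h1

end Pool.Agent.SGK
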